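import Pool.Agent.X83.DA.Stm

/-! Part `DA_UP`: duality, upper bound. -/

namespace Pool.Agent.X56.DA

open Pool.Agent.X83.DA MeasureTheory Set Filter Topology RealInnerProductSpace

variable (H : Type*) [NormedAddCommGroup H] [InnerProductSpace ℝ H] [CompleteSpace H]

theorem t_UP : S_UP H := by
  intro D A b c K P G hK hSA hF hD hsym hz hint x z hx hxz u1 f L hf hfL ε hε
  obtain ⟨γ, C, hγ, hC, hdec⟩ := hD
  obtain ⟨T1, hT1⟩ := Filter.eventually_atTop.1 hfL
  set T0 : ℝ := max T1 0 with hT0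
  have hT00 : 0 ≤ T0 := le_max_right _ _
  have hL : 0 ≤ L := (norm_nonneg _).trans (hT1 T1 le_rfl)
  have hfL' : ∀ s, T0 ≤ s → ‖f s‖ ≤ L := fun s hs => hT1 s ((le_max_left _ _).trans hs)
  have hG : ∀ s, 0 ≤ s → ∀ v : H, ‖G s v‖ ≤ C * ‖v‖ := by
    intro s hs v
    have he : Real.exp (-(γ * s)) ≤ 1 := by
      rw [Real.exp_le_one_iff]
      have := mul_nonneg hγ.le hs
      linarith
    have h1 := (hdec v s hs).2
    have h2 : 0 ≤ C * ‖v‖ := mul_nonneg hC (norm_nonneg _)
    calc ‖G s v‖ ≤ C * ‖v‖ * Real.exp (-(γ * s)) := h1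
      _ ≤ C * ‖v‖ * 1 := mul_le_mul_of_nonneg_left he h2
      _ = C * ‖v‖ := mul_one _
  have hΦ : Continuous (fun p : ℝ × H => G (max p.1 0) p.2) := by
    rw [continuous_iff_continuousAt]
    rintro ⟨s0, x0⟩
    rw [ContinuousAt, tendsto_iff_norm_sub_tendsto_zero]
    have hb : ∀ p : ℝ × H, ‖G (max p.1 0) p.2 - G (max s0 0) x0‖ ≤
        C * ‖p.2 - x0‖ + ‖G (max p.1 0) x0 - G (max s0 0) x0‖ := by
      intro p
      have e : G (max p.1 0) p.2 - G (max s0 0) x0
          = G (max p.1 0) (p.2 - x0) + (G (max p.1 0) x0 - G (max s0 0) x0) := by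
        rw [map_sub]; abel
      rw [e]
      exact (norm_add_le _ _).trans (add_le_add (hG _ (le_max_right _ _) _) le_rfl)
    have hc1 : Continuous fun p : ℝ × H => C * ‖p.2 - x0‖ := by fun_prop
    have hc2 : Continuous fun p : ℝ × H => ‖G (max p.1 0) x0 - G (max s0 0) x0‖ := by
      have : Continuous fun p : ℝ × H => G (max p.1 0) x0 :=
        (hF.cont x0).comp (continuous_fst.max continuous_const)
      exact (this.sub continuous_const).norm
    have hlim : Tendsto (fun p : ℝ × H => C * ‖p.2 - x0‖ +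
        ‖G (max p.1 0) x0 - G (max s0 0) x0‖) (𝓝 (s0, x0)) (𝓝 0) := by
      have hc : Continuous (fun p : ℝ × H => C * ‖p.2 - x0‖ +
        ‖G (max p.1 0) x0 - G (max s0 0) x0‖) := hc1.add hc2
      have := hc.tendsto (s0, x0)
      simpa using this
    exact squeeze_zero (fun _ => norm_nonneg _) hb hlim
  have hmeas : ∀ t, AEStronglyMeasurable (fun s => G (max (t - s) 0) (f s)) volume := by
    intro t
    have h1 : AEStronglyMeasurable (fun s : ℝ => t - s) volume :=
      (by fun_prop : Continuous fun s : ℝ => t - s).aestronglyMeasurable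
    exact hΦ.comp_aestronglyMeasurable (h1.prodMk hf.aestronglyMeasurable)
  have hfi : ∀ a b : ℝ, IntervalIntegrable f volume a b := fun a b =>
    (hf.integrableOn_isCompact isCompact_uIcc).intervalIntegrable
  have hii : ∀ t a b : ℝ, a ≤ b → b ≤ t →
      IntervalIntegrable (fun s => G (t - s) (f s)) volume a b := by
    intro t a b hab hbt
    have h1 : IntervalIntegrable (fun s => C * ‖f s‖) volume a b :=
      (hfi a b).norm.const_mul C
    rw [intervalIntegrable_iff_integrableOn_Ioc_of_le hab] at h1 ⊢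
    refine Integrable.mono' h1 ?_ ?_
    · refine (hmeas t).restrict.congr ?_
      refine ae_restrict_of_forall_mem measurableSet_Ioc ?_
      intro s hs
      show G (max (t - s) 0) (f s) = G (t - s) (f s)
      rw [max_eq_left (by linarith [hs.2])]
    · refine ae_restrict_of_forall_mem measurableSet_Ioc ?_
      intro s hs
      exact hG _ (by linarith [hs.2]) _
  -- the second part
  have hJ : ∀ t, T0 ≤ t → ‖∫ s in T0..t, G (t - s) (f s)‖ ≤ K * L := by
    intro t ht
    set J : H := ∫ s in T0..t, G (t - s) (f s) with hJdef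
    have h1 : ⟪J, J⟫ = ∫ s in T0..t, ⟪J, G (t - s) (f s)⟫ := by
      have := (innerSL ℝ J).intervalIntegral_comp_comm (hii t T0 t ht le_rfl)
      simp only [innerSL_apply_apply] at this
      rw [this]
    have c1 : Continuous fun s => ‖G (t - s) J‖ :=
      ((hF.cont J).comp (by fun_prop : Continuous fun s : ℝ => t - s)).norm
    have h2 : (∫ s in T0..t, ⟪J, G (t - s) (f s)⟫) ≤ ∫ s in T0..t, L * ‖G (t - s) J‖ := by
      refine intervalIntegral.integral_mono_on ht ?_ ?_ ?_
      · have := (hii t T0 t ht le_rfl)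
        rw [intervalIntegrable_iff_integrableOn_Ioc_of_le ht] at this ⊢
        exact this.const_inner J
      · exact (c1.const_mul L).intervalIntegrable _ _
      · intro s hs
        rw [← hsym]
        calc ⟪G (t - s) J, f s⟫ ≤ ‖G (t - s) J‖ * ‖f s‖ := real_inner_le_norm _ _
          _ ≤ ‖G (t - s) J‖ * L := mul_le_mul_of_nonneg_left (hfL' s hs.1) (norm_nonneg _)
          _ = L * ‖G (t - s) J‖ := mul_comm _ _
    have h3 : (∫ s in T0..t, L * ‖G (t - s) J‖) = L * ∫ r in (0 : ℝ)..(t - T0), ‖G r J‖ := by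
      rw [intervalIntegral.integral_const_mul,
        intervalIntegral.integral_comp_sub_left (fun r => ‖G r J‖) t, sub_self]
    have cJ : Continuous fun r => ‖G r J‖ := (hF.cont J).norm
    have hin : IntegrableOn (fun r => ‖G r J‖) (Ioi 0) volume := by
      have he := (exp_neg_integrableOn_Ioi 0 hγ).const_mul (C * ‖J‖)
      refine Integrable.mono' he cJ.aestronglyMeasurable.restrict ?_
      refine ae_restrict_of_forall_mem measurableSet_Ioi ?_
      intro r hr
      have := (hdec J r (le_of_lt hr)).2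
      rw [norm_norm]
      rw [neg_mul]
      exact this
    have h4 : (∫ r in (0 : ℝ)..(t - T0), ‖G r J‖) ≤ ∫ r in Ioi (0 : ℝ), ‖G r J‖ := by
      rw [intervalIntegral.integral_of_le (by linarith)]
      refine setIntegral_mono_set hin ?_ ?_
      · exact Filter.Eventually.of_forall fun r => norm_nonneg _
      · exact (Ioc_subset_Ioi_self).eventuallyLE
    have h5 : ‖J‖ * ‖J‖ ≤ K * L * ‖J‖ := by
      rw [← real_inner_self_eq_norm_mul_norm, h1]
      calc (∫ s in T0..t, ⟪J, G (t - s) (f s)⟫) ≤ L * ∫ r in (0 : ℝ)..(t - T0), ‖G r J‖ := by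
            rw [← h3]; exact h2
        _ ≤ L * (K * ‖J‖) := mul_le_mul_of_nonneg_left (h4.trans (hint J)) hL
        _ = K * L * ‖J‖ := by ring
    rcases eq_or_lt_of_le (norm_nonneg J) with h0 | h0
    · rw [← h0]; exact mul_nonneg hK hL
    · exact le_of_mul_le_mul_right h5 h0
  -- the first part
  set M : ℝ := ∫ s in (0 : ℝ)..T0, ‖f s‖ with hM
  have hI1 : ∀ t, T0 ≤ t → ‖∫ s in (0 : ℝ)..T0, G (t - s) (f s)‖ ≤
      C * Real.exp (-(γ * (t - T0))) * M := by
    intro t ht
    have h1 : ‖∫ s in (0 : ℝ)..T0, G (t - s) (f s)‖ ≤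
        ∫ s in (0 : ℝ)..T0, C * Real.exp (-(γ * (t - T0))) * ‖f s‖ := by
      refine intervalIntegral.norm_integral_le_of_norm_le hT00 ?_ ?_
      · refine Filter.Eventually.of_forall fun s hs => ?_
        have h2 := (hdec (f s) (t - s) (by linarith [hs.2])).2
        have h3 : Real.exp (-(γ * (t - s))) ≤ Real.exp (-(γ * (t - T0))) := by
          apply Real.exp_le_exp.mpr
          have := mul_le_mul_of_nonneg_left (show t - T0 ≤ t - s by linarith [hs.2]) hγ.le
          linarith
        calc ‖G (t - s) (f s)‖ ≤ C * ‖f s‖ * Real.exp (-(γ * (t - s))) := h2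
          _ ≤ C * ‖f s‖ * Real.exp (-(γ * (t - T0))) :=
              mul_le_mul_of_nonneg_left h3 (mul_nonneg hC (norm_nonneg _))
          _ = C * Real.exp (-(γ * (t - T0))) * ‖f s‖ := by ring
      · exact (hfi 0 T0).norm.const_mul _
    rw [intervalIntegral.integral_const_mul] at h1
    exact h1
  -- limits
  have l0 : Tendsto (fun t : ℝ => Real.exp (-(γ * t))) atTop (𝓝 0) := by
    apply Real.tendsto_exp_neg_atTop_nhds_zero.comp
    exact Tendsto.const_mul_atTop hγ tendsto_id
  have l1 : Tendsto (fun t : ℝ => C * Real.exp (-(γ * (t - T0))) * M) atTop (𝓝 0) := by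
    have h1 : Tendsto (fun t : ℝ => t - T0) atTop atTop := tendsto_atTop_add_const_right _ _ tendsto_id
    have h2 := ((l0.comp h1).const_mul C).mul_const M
    simpa [Function.comp_def] using h2
  have l2 : Tendsto (fun t : ℝ => C * ‖u1‖ * Real.exp (-(γ * t))) atTop (𝓝 0) := by
    simpa using l0.const_mul (C * ‖u1‖)
  have l3 : Tendsto (fun t => ‖z t‖) atTop (𝓝 0) := by
    have := (hz x z hx hxz).norm
    simpa using this
  have lsum : Tendsto (fun t : ℝ => ‖z t‖ + C * ‖u1‖ * Real.exp (-(γ * t)) +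
      C * Real.exp (-(γ * (t - T0))) * M) atTop (𝓝 0) := by
    simpa using (l3.add l2).add l1
  filter_upwards [lsum.eventually (gt_mem_nhds hε), eventually_ge_atTop T0,
    eventually_ge_atTop (0 : ℝ)] with t h1 h2 h3
  have hsplit : (∫ s in (0 : ℝ)..t, G (t - s) (f s)) =
      (∫ s in (0 : ℝ)..T0, G (t - s) (f s)) + ∫ s in T0..t, G (t - s) (f s) :=
    (intervalIntegral.integral_add_adjacent_intervals (hii t 0 T0 hT00 h2)
      (hii t T0 t h2 le_rfl)).symm
  rw [hsplit]
  have n1 := norm_add_le (z t + G t u1)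
    ((∫ s in (0 : ℝ)..T0, G (t - s) (f s)) + ∫ s in T0..t, G (t - s) (f s))
  have n2 := norm_add_le (z t) (G t u1)
  have n3 := norm_add_le (∫ s in (0 : ℝ)..T0, G (t - s) (f s)) (∫ s in T0..t, G (t - s) (f s))
  have n4 := (hdec u1 t h3).2
  have n5 := hI1 t h2
  have n6 := hJ t h2
  linarith

end Pool.Agent.X56.DA
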